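import Pool.Agent.N397.DP.Star

/-!
# Clique minors of direct products of graphs

The direct (tensor, categorical) product `G × H` of two graphs has `(x, y)` adjacent to `(x', y')` if
`x x'` is an edge of `G` and `y y'` is an edge of `H`.  The blow-up of `G` is the graph on `V(G) × V(H)` in
which two vertices are adjacent if their `G`-coordinates are.

**Theorem.**  Let `G` and `H` be finite graphs.

1. `G × H` satisfies Hadwiger's conjecture, without any hypothesis: if it is not `k`-colourable, `K_{k+1}` is a
  minor (so it has the property of the problem).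
2. If a vertex of `H` has at least as many neighbours as every vertex of `G`, then every graph `X` with
  `G × H ⊆ X ⊆` blow-up of `G` satisfies Hadwiger's conjecture.
3. If `G` and `H` both have a vertex with `s ≥ 1` neighbours, then `K_{s+1}` is a minor of every graph which
  contains `G × H`.
4. If `H` is not bipartite and `K_m` is a minor of `G`, then `K_m` is a minor of every graph on
  `V(G) × V(H)` which contains `G × H`.
5. Let `H` be not bipartite and `G × H ⊆ X ⊆` blow-up of `G`.  If `G` has the property of the problem
  (whenever `G` is not `k`-colourable, `K_k` is a minor of `G`), so has `X`; if `G` satisfies Hadwiger's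
  conjecture, so does `X`.

Proof of 3: the product of two stars with `s` leaves contains `K_{s,s}`, between the vertices (centre, leaf)
and (leaf, centre), and `K_{s,s}` has a `K_{s+1}` minor.  1 and 2 follow, because a graph which is not
`k`-colourable has a vertex with `k` neighbours.
Proof of 4.  Let `w` be an odd closed walk of `H` and `S` the set of its vertices.  If a branch set `B` of the
minor has an edge, then `B × S` is connected in `G × H`: walking around `w` along an edge `u v` of `B` leads from
`(u, a)` to `(v, a)`, and from `(u, a)` every `(u, s)` is reached by a walk of even length from `(u, a)`, or of odd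
length from `(v, a)`.  The branch sets with a single vertex form a clique `v_1, ..., v_r`.  For them take the sets
`{(v_i, a), (v_{σ i}, b)}` with an edge `a b` of `w` and a permutation `σ` without cycles of length one or two (for
`r ≥ 3`; for `r ≤ 2` single vertices do).  They are pairwise adjacent, and adjacent to the boxes `B × S`.
5 follows, as the colourings of `G` lift.
-/

set_option autoImplicit false

namespace Pool.Agent.Results.MP_b47bfb_co.DirectProducts

open Pool.Agent.R553.HW Pool.Agent.N397.DP

theorem result (V W : Type) [Finite V] [Finite W] (G : SimpleGraph V) (H : SimpleGraph W) :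
    Had (dp G H) ∧
    (∀ X : SimpleGraph (V × W), dp G H ≤ X → (∀ p q : V × W, X.Adj p q → G.Adj p.1 q.1) →
      Dominates H G → Had X) ∧
    (∀ X : SimpleGraph (V × W), dp G H ≤ X → ∀ s : ℕ, 1 ≤ s → ∀ (v : V) (w : W) (b : Fin s → V)
      (a : Fin s → W), Function.Injective b → Function.Injective a → (∀ i, G.Adj v (b i)) →
      (∀ i, H.Adj w (a i)) → CMt X (Fin (s + 1))) ∧
    (¬ H.Colorable 2 → ∀ X : SimpleGraph (V × W), dp G H ≤ X →
      ∀ m : ℕ, CMt G (Fin m) → CMt X (Fin m)) ∧
    (¬ H.Colorable 2 → ∀ X : SimpleGraph (V × W), dp G H ≤ X →
      (∀ p q : V × W, X.Adj p q → G.Adj p.1 q.1) → (Obo G → Obo X) ∧ (Had G → Had X)) :=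
  ⟨had_dp G H,
    fun _ hX hup hD => had_blow (fun _ _ h1 h2 => hX (⟨h1, h2⟩ : (dp G H).Adj _ _)) hup hD,
    fun _ hX s hs v w b a hb ha hvb hwa =>
      minor_star (fun _ _ h1 h2 => hX (⟨h1, h2⟩ : (dp G H).Adj _ _)) s hs v w b a hb ha hvb hwa,
    fun hH _ hX _ h => minor_dp (fun _ _ h1 h2 => hX (⟨h1, h2⟩ : (dp G H).Adj _ _)) hH h,
    fun hH _ hX hup => pass (fun _ _ h1 h2 => hX (⟨h1, h2⟩ : (dp G H).Adj _ _)) hup hH⟩

end Pool.Agent.Results.MP_b47bfb_co.DirectProducts
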